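import Pool.Agent.Helper21.MT10.Stmts
import Pool.Agent.Helper2.MT9.TOP

/-!
# LIE9: the Lie theorem of T9
-/

set_option autoImplicit false

namespace MT

theorem st_LIE9 (hCMP : ST_CMP) (hEND : ST_END) : ST_LIE9 := by
  intro K _ _ _ n ε ψ d N a hT
  have h1 := hCMP K n ε ψ d N a hT
  have h2 := hCMP K n ε ψ _ N a (Top9.neg hT)
  exact hEND K n ε ψ d N a hT h1 (by
    intro A hA x y hx hy
    have h4 := h2 A hA x y (fun j hj => by
      have := hx j hj
      omega) (fun j hj => by
      have := hy j hj
      omega)
    have h5 : inn (fun j => - d j) N (A.mulVec y) = inn d N (A.mulVec y) := by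
      funext j
      simp only [inn, abs_neg]
    rwa [h5] at h4)

end MT
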