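import Pool.Agent.Helper21.MT10.Stmts
import Pool.Agent.Helper2.MT9.TOP

/-!
# TOPG: the Lie theorem for isolated Hodge numbers, after a change of basis
-/

set_option autoImplicit false

namespace MT

namespace Top10

variable {K : Type} [Field K] {n : ℕ}

/-- the data of T9 from graded data -/
theorem topd [CharZero K] {w m : ℕ} {h : Fin n → ℕ} {ψ : Matrix (Fin n) (Fin n) K}
    {e : Fin n → ℤ} {N : ℤ} {a : Submodule K (Matrix (Fin n) (Fin n) K)}
    (hG : GrD ((-1 : K) ^ w) ψ e a) (hN : 0 < N)
    (hbd : ∀ j, |e j| ≤ N) (htop : 2 ≤ (Finset.univ.filter fun j => h j = m).card)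
    (hm : ∀ j, h j = m → e j = N) (hin : ∃ j, |e j| < N)
    (hI : ∀ j, |e j| < N → Inn w m (h j) ∧ e j = 2 * (h j : ℤ) - w)
    (hth : ∀ p : ℕ, Inn w m p →
      (Finset.univ.filter fun j => h j = p).card ≤ if 2 * p = w then 2 else 1) :
    TopD ((-1 : K) ^ w) ψ e N a := by
  have hcard : ∀ x : ℤ, |x| < N → (Finset.univ.filter fun j => e j = x).card ≤
      if x = 0 then 2 else 1 := by
    intro x hx
    by_cases he : (Finset.univ.filter fun j => e j = x) = ∅
    · rw [he, Finset.card_empty]
      exact Nat.zero_le _
    · obtain ⟨j₀, hj₀⟩ := Finset.nonempty_iff_ne_empty.mpr he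
      have hj₀' : e j₀ = x := (Finset.mem_filter.mp hj₀).2
      obtain ⟨hi, hd⟩ := hI j₀ (by rw [hj₀']; exact hx)
      have h1 := hth (h j₀) hi
      have h2 : (Finset.univ.filter fun j => e j = x) ⊆
          Finset.univ.filter fun j => h j = h j₀ := by
        intro j hj
        simp only [Finset.mem_filter, Finset.mem_univ, true_and] at hj ⊢
        have h3 := (hI j (by rw [hj]; exact hx)).2
        omega
      refine (Finset.card_le_card h2).trans (h1.trans (le_of_eq ?_))
      by_cases h0 : x = 0
      · rw [if_pos h0, if_pos (by omega)]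
      · rw [if_neg h0, if_neg (by omega)]
  exact
    { unit := hG.unit
      symm := hG.symm
      sign := hG.sign
      grad := hG.grad
      brk := hG.brk
      iso := hG.iso
      irr := hG.irr
      comp := hG.comp
      pos := hN
      bd := hbd
      top := by
        refine htop.trans (Finset.card_le_card ?_)
        intro j hj
        simp only [Finset.mem_filter, Finset.mem_univ, true_and] at hj ⊢
        exact hm j hj
      inner := hin
      thin := by
        intro x hx hx0
        have := hcard x hx
        rwa [if_neg hx0] at this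
      mid := by
        have := hcard 0 (by rw [abs_zero]; exact hN)
        rwa [if_pos rfl] at this
      mid' := by
        intro he j hj
        have hodd : Odd w := by
          by_contra hno
          rw [Nat.not_odd_iff_even] at hno
          rw [hno.neg_one_pow] at he
          have h2 : (2 : K) = 0 := by
            have : (1 : K) + 1 = 0 := by
              nth_rewrite 1 [he]
              ring
            rw [← this]
            norm_num
          exact two_ne_zero h2
        obtain ⟨k, hk⟩ := hodd
        have := (hI j (by rw [hj, abs_zero]; exact hN)).2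
        omega }

/-- another grading of graded data -/
theorem regrade [CharZero K] (hGRA : ST_GRA) {ε : K} {ψ : Matrix (Fin n) (Fin n) K}
    {d : Fin n → ℤ} {a : Submodule K (Matrix (Fin n) (Fin n) K)} (hG : GrD ε ψ d a) (c : ℤ → ℤ)
    (hc : ∀ i, c (-d i) = -c (d i))
    (hD : Matrix.diagonal (fun j => (c (d j) : K)) ∈ a) :
    GrD ε ψ (fun j => c (d j)) a where
  unit := hG.unit
  symm := hG.symm
  sign := hG.sign
  grad := by
    intro i j hij
    have h1 := hG.grad i j hij
    have h2 : d j = - d i := by omega
    rw [h2, hc]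
    omega
  brk := hG.brk
  iso := hG.iso
  irr := hG.irr
  comp := hGRA K n a (fun j => c (d j)) fun A hA => hG.brk _ hD _ hA

end Top10

open Top10 in
/-- the Lie theorem, graded form -/
theorem graded_TOPG (hLIE : ST_LIE9) (hADD : ST_ADD) (hSHF : ST_SHF) (hONE : ST_ONE)
    (hGRA : ST_GRA) (K : Type) [Field K] [CharZero K] [IsAlgClosed K] (n w : ℕ) (h : Fin n → ℕ)
    (ψ : Matrix (Fin n) (Fin n) K) (a : Submodule K (Matrix (Fin n) (Fin n) K))
    (hgood : Good w h) (hG : GrD ((-1 : K) ^ w) ψ (fun j => 2 * (h j : ℤ) - (w : ℤ)) a) :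
    ∀ A : Matrix (Fin n) (Fin n) K, A.transpose * ψ + ψ * A = 0 → A ∈ a := by
  classical
  obtain ⟨m, hm, ⟨j₁, hj₁⟩, hcase⟩ := hgood
  set d : Fin n → ℤ := fun j => 2 * (h j : ℤ) - (w : ℤ) with hd
  have hdj : ∀ j, d j = 2 * (h j : ℤ) - (w : ℤ) := fun j => rfl
  obtain ⟨N, hN⟩ : ∃ N : ℤ, N = 2 * (m : ℤ) - (w : ℤ) := ⟨_, rfl⟩
  have hN0 : 0 < N := by omega
  have hInn : ∀ j, (d j ≠ N ∧ d j ≠ -N) → Inn w m (h j) := by
    intro j hj
    rw [hdj, hN] at hj
    exact ⟨by omega, by omega⟩
  have hInn' : ∀ j, Inn w m (h j) → d j ≠ N ∧ d j ≠ -N := by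
    intro j hj
    obtain ⟨h1, h2⟩ := hj
    rw [hdj, hN]
    exact ⟨by omega, by omega⟩
  have hIso : Isol w h m → IsoZ d N := by
    intro hi i j k h1 h2 h3
    obtain ⟨e1, e2, e3⟩ := hi i j k (hInn i h1) (hInn j h2) (hInn k h3)
    rw [hdj, hdj, hdj, hN]
    exact ⟨by omega, by omega, by omega⟩
  obtain ⟨s, hs⟩ := Top9.exists_perm ψ d hG.unit hG.grad
  have hsym : ∀ i, ∃ j, d j = - d i := fun i => ⟨s i, hs i⟩
  rcases hcase with ⟨hi, hone⟩ | ⟨hi, htop, hth⟩
  · -- isolated with Hodge number one
    obtain ⟨c, hc⟩ : ∃ c : ℤ → ℤ, ∀ x, c x = 0 * x + if x = N then 1 else if x = -N then -1 else 0 :=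
      ⟨fun x => 0 * x + if x = N then 1 else if x = -N then -1 else 0, fun x => rfl⟩
    obtain ⟨hodd, hadd⟩ := hSHF n d N hN0 hsym (hIso hi) 0 1 c hc
    have hD := hADD K n _ ψ d a hG c hodd hadd
    have hG' := regrade hGRA hG c hodd hD
    have hcN : ∀ x, x ≠ N → x ≠ -N → c x = 0 := by
      intro x h1 h2
      rw [hc, if_neg h1, if_neg h2]
      ring
    have hc1 : ∀ x, c x = 1 ↔ x = N := by
      intro x
      rw [hc]
      by_cases h1 : x = N
      · simp [h1]
      · rw [if_neg h1]
        by_cases h2 : x = -N
        · rw [if_pos h2]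
          constructor
          · intro h3; omega
          · intro h3; exact absurd h3 h1
        · rw [if_neg h2]
          constructor
          · intro h3; omega
          · intro h3; exact absurd h3 h1
    refine hONE K n _ ψ (fun j => c (d j)) a hG' ?_ ?_ ?_
    · intro j
      rw [abs_le]
      rw [hc]
      split_ifs <;> constructor <;> omega
    · rw [← hone]
      congr 1
      ext j
      simp only [Finset.mem_filter, Finset.mem_univ, true_and]
      rw [hc1, hdj, hN]
      omega
    · obtain ⟨h1, h2⟩ := hInn' j₁ hj₁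
      exact ⟨j₁, hcN _ h1 h2⟩
  · rcases hi with hi | hout
    · -- isolated, the other types thin
      obtain ⟨M, hM⟩ : ∃ M : ℤ, M = 1 + ∑ j, |d j| := ⟨_, rfl⟩
      have hdM : ∀ j, |d j| < M := by
        intro j
        have h1 : |d j| ≤ ∑ j, |d j| :=
          Finset.single_le_sum (f := fun j => |d j|) (fun i _ => abs_nonneg _) (Finset.mem_univ j)
        omega
      have hM0 : 0 < M := lt_of_le_of_lt (abs_nonneg _) (hdM j₁)
      obtain ⟨c, hc⟩ : ∃ c : ℤ → ℤ,
          ∀ x, c x = 1 * x + if x = N then M else if x = -N then -M else 0 :=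
        ⟨fun x => 1 * x + if x = N then M else if x = -N then -M else 0, fun x => rfl⟩
      obtain ⟨hodd, hadd⟩ := hSHF n d N hN0 hsym (hIso hi) 1 M c hc
      have hD := hADD K n _ ψ d a hG c hodd hadd
      have hG' := regrade hGRA hG c hodd hD
      have hcI : ∀ x, x ≠ N → x ≠ -N → c x = x := by
        intro x h1 h2
        rw [hc, if_neg h1, if_neg h2]
        ring
      have hcN : c N = N + M := by
        rw [hc, if_pos rfl]
        ring
      have hcN' : c (-N) = -(N + M) := by
        rw [hc, if_neg (by omega), if_pos rfl]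
        ring
      refine hLIE K n _ ψ (fun j => c (d j)) (N + M) a (topd (m := m) hG' (by omega) ?_ htop ?_
        ?_ ?_ hth)
      · intro j
        by_cases h1 : d j = N
        · rw [h1, hcN, abs_of_pos (by omega)]
        · by_cases h2 : d j = -N
          · rw [h2, hcN', abs_neg, abs_of_pos (by omega)]
          · rw [hcI _ h1 h2]
            have := hdM j
            omega
      · intro j hj
        have : d j = N := by rw [hdj, hj, hN]
        rw [this, hcN]
      · obtain ⟨h1, h2⟩ := hInn' j₁ hj₁
        refine ⟨j₁, ?_⟩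
        rw [hcI _ h1 h2]
        have := hdM j₁
        omega
      · intro j hj
        have h1 : d j ≠ N := by
          intro h0
          rw [h0, hcN, abs_of_pos (by omega)] at hj
          omega
        have h2 : d j ≠ -N := by
          intro h0
          rw [h0, hcN', abs_neg, abs_of_pos (by omega)] at hj
          omega
        exact ⟨hInn j ⟨h1, h2⟩, by rw [hcI _ h1 h2]⟩
    · -- outermost
      refine hLIE K n _ ψ d N a (topd (m := m) hG hN0 ?_ htop ?_ ?_ ?_ hth)
      · intro j
        have := hout j
        rw [abs_le, hdj, hN]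
        constructor <;> omega
      · intro j hj
        rw [hdj, hj, hN]
      · obtain ⟨h1, h2⟩ := hInn' j₁ hj₁
        refine ⟨j₁, ?_⟩
        have := hout j₁
        rw [hdj, hN] at h1 h2
        rw [abs_lt, hdj, hN]
        constructor <;> omega
      · intro j hj
        rw [abs_lt] at hj
        exact ⟨hInn j ⟨by omega, by omega⟩, hdj j⟩

/-- the Lie theorem -/
theorem st_TOPG (hLIE : ST_LIE9) (hADD : ST_ADD) (hSHF : ST_SHF) (hONE : ST_ONE)
    (hGRA : ST_GRA) : ST_TOPG := by
  intro K _ _ _ n w h ψ P a hGood hdet hsym hbrk hirr hiso hgr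
  classical
  set p : Matrix (Fin n) (Fin n) K := (P : Matrix (Fin n) (Fin n) K) with hp
  set q : Matrix (Fin n) (Fin n) K :=
    ((P⁻¹ : Matrix.GeneralLinearGroup (Fin n) K) : Matrix (Fin n) (Fin n) K) with hq
  have hpq : p * q = 1 := by
    rw [hp, hq, ← Matrix.GeneralLinearGroup.coe_mul, mul_inv_cancel,
      Matrix.GeneralLinearGroup.coe_one]
  have hqp : q * p = 1 := by
    rw [hp, hq, ← Matrix.GeneralLinearGroup.coe_mul, inv_mul_cancel,
      Matrix.GeneralLinearGroup.coe_one]
  have hpq' : ∀ X : Matrix (Fin n) (Fin n) K, p * (q * X) = X := fun X => by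
    rw [← Matrix.mul_assoc, hpq, Matrix.one_mul]
  have hqp' : ∀ X : Matrix (Fin n) (Fin n) K, q * (p * X) = X := fun X => by
    rw [← Matrix.mul_assoc, hqp, Matrix.one_mul]
  have hTqp : p.transpose * q.transpose = 1 := by
    rw [← Matrix.transpose_mul, hqp, Matrix.transpose_one]
  have hTqp' : ∀ X : Matrix (Fin n) (Fin n) K, p.transpose * (q.transpose * X) = X := fun X => by
    rw [← Matrix.mul_assoc, hTqp, Matrix.one_mul]
  -- conjugation
  let c : Matrix (Fin n) (Fin n) K →ₗ[K] Matrix (Fin n) (Fin n) K :=
    { toFun := fun X => p * X * q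
      map_add' := by
        intro X Y
        rw [Matrix.mul_add, Matrix.add_mul]
      map_smul' := by
        intro r X
        rw [Matrix.mul_smul, Matrix.smul_mul, RingHom.id_apply] }
  let a' : Submodule K (Matrix (Fin n) (Fin n) K) := a.comap c
  have hmem : ∀ X, X ∈ a' ↔ p * X * q ∈ a := fun X => Iff.rfl
  set ψ' : Matrix (Fin n) (Fin n) K := p.transpose * ψ * p with hψ'
  let d : Fin n → ℤ := fun j => 2 * (h j : ℤ) - (w : ℤ)
  have hD : Matrix.diagonal (fun j => (d j : K)) ∈ a' := by
    rw [hmem]
    have : (fun j => (d j : K)) = fun j => 2 * (h j : K) - (w : K) := by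
      funext j
      simp only [d]
      push_cast
      rfl
    rw [this]
    exact hgr
  have hiso' : ∀ A ∈ a', A.transpose * ψ' + ψ' * A = 0 := by
    intro A hA
    have h1 := hiso _ ((hmem A).mp hA)
    have h2 : p.transpose * ((p * A * q).transpose * ψ + ψ * (p * A * q)) * p = 0 := by
      rw [h1, Matrix.mul_zero, Matrix.zero_mul]
    rw [Matrix.transpose_mul, Matrix.transpose_mul] at h2
    rw [← h2, hψ']
    simp only [Matrix.mul_add, Matrix.add_mul, Matrix.mul_assoc, hTqp', hqp, Matrix.mul_one]
  have hbrk' : Brk a' := by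
    intro A hA B hB
    rw [hmem] at hA hB ⊢
    have h1 := hbrk _ hA _ hB
    have h2 : p * (A * B - B * A) * q = p * A * q * (p * B * q) - p * B * q * (p * A * q) := by
      simp only [Matrix.mul_sub, Matrix.sub_mul, Matrix.mul_assoc, hqp']
    rw [h2]
    exact h1
  have hG : GrD ((-1 : K) ^ w) ψ' d a' :=
    { unit := by
        rw [hψ', Matrix.det_mul, Matrix.det_mul, Matrix.det_transpose]
        have hpd : p.det ≠ 0 := by
          intro h0
          have := congrArg Matrix.det hpq
          rw [Matrix.det_mul, h0, zero_mul, Matrix.det_one] at this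
          exact zero_ne_one this
        exact mul_ne_zero (mul_ne_zero hpd hdet) hpd
      symm := by
        rw [hψ', Matrix.transpose_mul, Matrix.transpose_mul, Matrix.transpose_transpose, hsym,
          Matrix.smul_mul, Matrix.mul_smul, Matrix.mul_assoc]
      sign := neg_one_pow_eq_or K w
      grad := by
        intro i j hij
        have h1 := congrFun (congrFun (hiso' _ hD) i) j
        rw [Matrix.diagonal_transpose, Matrix.add_apply, Matrix.diagonal_mul,
          Matrix.mul_diagonal, Matrix.zero_apply] at h1
        have h2 : ((d i + d j : ℤ) : K) * ψ' i j = 0 := by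
          rw [← h1]
          push_cast
          ring
        have h3 := (mul_eq_zero.mp h2).resolve_right hij
        exact_mod_cast h3
      brk := hbrk'
      iso := hiso'
      irr := by
        intro U hU
        have h1 := hirr (U.comap q.mulVecLin) (by
          intro A hA v hv
          rw [Submodule.mem_comap, Matrix.mulVecLin_apply] at hv ⊢
          have h2 : q * A * p ∈ a' := by
            rw [hmem]
            have : p * (q * A * p) * q = A := by
              rw [Matrix.mul_assoc q, hpq', Matrix.mul_assoc, hpq, Matrix.mul_one]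
            rw [this]
            exact hA
          have h3 := hU _ h2 _ hv
          rw [Matrix.mulVec_mulVec, Matrix.mul_assoc, Matrix.mul_assoc, hpq, Matrix.mul_one] at h3
          rw [Matrix.mulVec_mulVec]
          exact h3)
        rcases h1 with h1 | h1
        · left
          rw [Submodule.eq_bot_iff]
          intro u hu
          have h2 : p.mulVec u ∈ U.comap q.mulVecLin := by
            rw [Submodule.mem_comap, Matrix.mulVecLin_apply, Matrix.mulVec_mulVec, hqp,
              Matrix.one_mulVec]
            exact hu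
          rw [h1, Submodule.mem_bot] at h2
          have h3 := congrArg q.mulVec h2
          rwa [Matrix.mulVec_mulVec, hqp, Matrix.one_mulVec, Matrix.mulVec_zero] at h3
        · right
          rw [Submodule.eq_top_iff']
          intro u
          have h2 : p.mulVec u ∈ U.comap q.mulVecLin := by
            rw [h1]
            exact Submodule.mem_top
          rwa [Submodule.mem_comap, Matrix.mulVecLin_apply, Matrix.mulVec_mulVec, hqp,
            Matrix.one_mulVec] at h2
      comp := hGRA K n a' d fun A hA => hbrk' _ hD _ hA }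
  have h3 := graded_TOPG hLIE hADD hSHF hONE hGRA K n w h ψ' a' hGood hG
  intro A hA
  have h4 : q * A * p ∈ a' := by
    refine h3 _ ?_
    have h5 : p.transpose * (A.transpose * ψ + ψ * A) * p = 0 := by
      rw [hA, Matrix.mul_zero, Matrix.zero_mul]
    rw [← h5, hψ']
    simp only [Matrix.mul_add, Matrix.add_mul, Matrix.mul_assoc, Matrix.transpose_mul, hpq']
    congr 1
    have h6 : q.transpose * (p.transpose * (ψ * p)) = ψ * p := by
      rw [← Matrix.mul_assoc, ← Matrix.transpose_mul, hpq, Matrix.transpose_one, Matrix.one_mul]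
    rw [h6]
  rw [hmem] at h4
  have h7 : p * (q * A * p) * q = A := by
    rw [Matrix.mul_assoc q, hpq', Matrix.mul_assoc, hpq, Matrix.mul_one]
  rwa [h7] at h4

end MT
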